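import Pool.Agent.Work.MP_8c604c_gt.Main
import Pool.Agent.Work.MP_8c604c_gt.St

open scoped LinearAlgebra.Projectivization
open Pool.Agent.Work.MP_8c604c_gt.St

theorem Pool.Agent.Work.MP_8c604c_gt.Old.BlaschkeCP.result (n : ℕ) (hn : 2 ≤ n) (g : Met (E n))
    (hg : IsMetric g) (L : ℝ) (hL : 0 < L)
    (hper : ∀ z, IsUnitGeodesic g z → ∀ t, ∃ c : ℂ, z (t + L) = c • z t)
    (hmin : ∀ z, IsUnitGeodesic g z → ∀ t ∈ Set.Icc 0 (L / 2), ∀ c, Joins c (z 0) (z t) →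
      t ≤ len g c) :
    ∃ (Ψ : ℙ ℂ (E n) → ℙ ℂ (E n)) (c : ℝ), Function.Bijective Ψ ∧ 0 < c ∧ PullsBack g Ψ c :=
  Pool.Agent.Work.MP_8c604c_gt.blaschke (n := n) (g := g) hn
    ⟨hg.smooth, hg.symm, hg.inv, hg.vert, hg.pos⟩ hL
    (fun z hz => hper z ⟨hz.smooth, hz.ne, hz.el, hz.unit⟩)
    (fun z hz t ht c hc => hmin z ⟨hz.smooth, hz.ne, hz.el, hz.unit⟩ t ht c
      ⟨hc.smooth, hc.ne, hc.start, hc.stop⟩)
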