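import Pool.Agent.Work.MP_8c604c_gt.OC.Br

open Pool.Agent.Work.MP_8c604c_gt.OM.St

theorem Pool.Agent.Work.MP_8c604c_gt.Old.BlaschkeCa.result (g : Met Mat) (hg : IsMetric CaP g)
    (L : ℝ) (hL : 0 < L) (hper : ∀ c, IsUnitGeodesic CaP g c → ∀ t, c (t + L) = c t)
    (hmin : ∀ c, IsUnitGeodesic CaP g c → ∀ t ∈ Set.Icc 0 (L / 2), ∀ γ, Joins CaP γ (c 0) (c t) →
      t ≤ len g γ) :
    ∃ (Ψ : Mat → Mat) (c : ℝ), Set.BijOn Ψ CaP CaP ∧ 0 < c ∧ PullsBack CaP g Ψ c :=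
  rig_CaP g hg L hL hper hmin
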